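import Mathlib
import Pool.Agent.S16580

set_option autoImplicit false
open Filter

namespace Pool.Agent.Results.MP_37fc1f_nt.IrrationalRoots

open Pool.Agent.S16580

/-- the recurrence in backward form -/
lemma sol_back (x y : ℚ) (n : ℕ) (hn : 2 ≤ n) :
    sol x y n = 9 * (2 * (n : ℚ) - 1) / (49 * n) * sol x y (n - 1)
      + (-((3 * (n : ℚ) - 2) * (3 * n - 4)) / (441 * n * (n - 1))) * sol x y (n - 2) := by
  obtain ⟨m, rfl⟩ := Nat.exists_eq_add_of_le hn
  have e1 : 2 + m - 1 = m + 1 := by omega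
  have e2 : 2 + m - 2 = m := by omega
  rw [e1, e2, show 2 + m = m + 2 by omega, sol_rec]
  push_cast
  have h1 : ((m : ℚ) + 1) ≠ 0 := by positivity
  have h2 : ((m : ℚ) + 2) ≠ 0 := by positivity
  have h3 : ((m : ℚ) + 2 - 1) ≠ 0 := by
    have : (m : ℚ) + 2 - 1 = m + 1 := by ring
    rw [this]; exact h1
  field_simp
  ring

/-- The recurrence `u_n = b_n u_{n-1} + a_n u_{n-2}` (`n ≥ 2`) with
`b_n = 9(2n-1)/(49n)` and `a_n = -(3n-2)(3n-4)/(441 n(n-1))` is of Poincare type, its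
characteristic roots are the irrational numbers `(9 ± 4√2)/49`, and it has two rational
solutions, positive and linearly independent, whose ratios of consecutive terms tend to the
smaller and to the larger characteristic root. -/
theorem result :
    ∃ v w : ℕ → ℚ,
      (∀ n : ℕ, 2 ≤ n → v n = 9 * (2 * (n : ℚ) - 1) / (49 * n) * v (n - 1)
        + (-((3 * (n : ℚ) - 2) * (3 * n - 4)) / (441 * n * (n - 1))) * v (n - 2)) ∧
      (∀ n : ℕ, 2 ≤ n → w n = 9 * (2 * (n : ℚ) - 1) / (49 * n) * w (n - 1)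
        + (-((3 * (n : ℚ) - 2) * (3 * n - 4)) / (441 * n * (n - 1))) * w (n - 2)) ∧
      (∀ n, 0 < v n) ∧ (∀ n, 0 < w n) ∧
      Tendsto (fun n : ℕ => 9 * (2 * (n : ℝ) - 1) / (49 * n)) atTop (nhds (18 / 49)) ∧
      Tendsto (fun n : ℕ => -((3 * (n : ℝ) - 2) * (3 * n - 4)) / (441 * n * (n - 1))) atTop
        (nhds (-(1 / 49))) ∧
      (∀ x : ℂ, x ^ 2 - 18 / 49 * x - (-(1 / 49)) = 0 ↔
        x = ((9 - 4 * Real.sqrt 2) / 49 : ℝ) ∨ x = ((9 + 4 * Real.sqrt 2) / 49 : ℝ)) ∧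
      0 < (9 - 4 * Real.sqrt 2) / 49 ∧
      (9 - 4 * Real.sqrt 2) / 49 < (9 + 4 * Real.sqrt 2) / 49 ∧
      Irrational ((9 - 4 * Real.sqrt 2) / 49) ∧ Irrational ((9 + 4 * Real.sqrt 2) / 49) ∧
      Tendsto (fun n : ℕ => (v (n + 1) : ℝ) / (v n : ℝ)) atTop
        (nhds ((9 - 4 * Real.sqrt 2) / 49)) ∧
      Tendsto (fun n : ℕ => (w (n + 1) : ℝ) / (w n : ℝ)) atTop
        (nhds ((9 + 4 * Real.sqrt 2) / 49)) ∧
      (∀ c d : ℝ, (∀ᶠ n in atTop, c * (v n : ℝ) + d * (w n : ℝ) = 0) → c = 0 ∧ d = 0) := by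
  have hs2 : Real.sqrt 2 ^ 2 = 2 := Real.sq_sqrt (by norm_num)
  have hsb := sqrt_two_bounds
  have hvpos : ∀ n, 0 < (sol 1 (2 / 49) n : ℝ) := by
    intro n
    have h1 := (sol_J n).1
    have h2 := J_pos n
    have h3 := J_pos 0
    rw [← h1] at h2
    exact (pos_iff_pos_of_mul_pos h2).2 h3
  have hwpos : ∀ n, 0 < (sol 5 1 n : ℝ) := fun n => (W_props n).1
  have hvratio : Tendsto (fun n : ℕ => ((sol 1 (2 / 49) (n + 1) : ℝ) / (sol 1 (2 / 49) n : ℝ)))
      atTop (nhds ((9 - 4 * Real.sqrt 2) / 49)) := by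
    refine J_ratio_tendsto.congr fun n => ?_
    rw [← (sol_J n).1, ← (sol_J n).2]
    exact mul_div_mul_right _ _ (J_pos 0).ne'
  have hlim1 : (9 - 4 * Real.sqrt 2) / 49 ≠ (9 + 4 * Real.sqrt 2) / 49 := by
    intro h
    have := hsb.1
    linarith
  have hirr1 : Irrational ((9 - 4 * Real.sqrt 2) / 49) := by
    rintro ⟨q, hq⟩
    apply irrational_sqrt_two
    refine ⟨(9 - 49 * q) / 4, ?_⟩
    push_cast
    rw [hq]
    ring
  have hirr2 : Irrational ((9 + 4 * Real.sqrt 2) / 49) := by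
    rintro ⟨q, hq⟩
    apply irrational_sqrt_two
    refine ⟨(49 * q - 9) / 4, ?_⟩
    push_cast
    rw [hq]
    ring
  refine ⟨sol 1 (2 / 49), sol 5 1, sol_back _ _, sol_back _ _, ?_, ?_, ?_, ?_, ?_, ?_, ?_,
    hirr1, hirr2, hvratio, W_ratio_tendsto, ?_⟩
  · intro n
    exact_mod_cast hvpos n
  · intro n
    exact_mod_cast hwpos n
  · rw [← tendsto_add_atTop_iff_nat 2]
    refine tendsto_b.congr fun n => ?_
    push_cast
    ring
  · rw [← tendsto_add_atTop_iff_nat 2]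
    refine tendsto_a.neg.congr fun n => ?_
    push_cast
    rw [← neg_div]
    congr 1
    · ring
    · ring
  · intro x
    have hs2c : ((Real.sqrt 2 : ℝ) : ℂ) ^ 2 = 2 := by
      rw [← Complex.ofReal_pow, hs2]; norm_num
    have hfac : x ^ 2 - 18 / 49 * x - (-(1 / 49)) =
        (x - ((9 - 4 * Real.sqrt 2) / 49 : ℝ)) * (x - ((9 + 4 * Real.sqrt 2) / 49 : ℝ)) := by
      push_cast
      linear_combination (16 / 2401 : ℂ) * hs2c
    rw [hfac, mul_eq_zero, sub_eq_zero, sub_eq_zero]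
  · linarith [hsb.2]
  · linarith [hsb.1]
  · intro c d hcd
    have hc : c = 0 := by
      by_contra hc
      apply hlim1
      refine tendsto_nhds_unique (hvratio.congr' ?_) W_ratio_tendsto
      filter_upwards [hcd, (tendsto_add_atTop_nat 1).eventually hcd] with n h1 h2
      have hv0 := (hvpos n).ne'
      have hw0 := (hwpos n).ne'
      rw [div_eq_div_iff hv0 hw0]
      have e1 : c * (sol 1 (2 / 49) n : ℝ) = - (d * sol 5 1 n) := by linarith
      have e2 : c * (sol 1 (2 / 49) (n + 1) : ℝ) = - (d * sol 5 1 (n + 1)) := by linarith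
      apply mul_left_cancel₀ hc
      calc c * ((sol 1 (2 / 49) (n + 1) : ℝ) * sol 5 1 n)
          = (c * sol 1 (2 / 49) (n + 1)) * sol 5 1 n := by ring
        _ = - (d * sol 5 1 n) * sol 5 1 (n + 1) := by rw [e2]; ring
        _ = (c * sol 1 (2 / 49) n) * sol 5 1 (n + 1) := by rw [e1]
        _ = c * (sol 5 1 (n + 1) * sol 1 (2 / 49) n) := by ring
    refine ⟨hc, ?_⟩
    obtain ⟨n, hn⟩ := hcd.exists
    rw [hc, zero_mul, zero_add] at hn
    rcases mul_eq_zero.1 hn with h | h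
    · exact h
    · exact absurd h (hwpos n).ne'

end Pool.Agent.Results.MP_37fc1f_nt.IrrationalRoots
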